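import Pool.Agent.W81.R1N.App2N

/-!
The asymptotic formula of Hardy and Littlewood for the number `N(n)` of representations of `n` as a
square plus a prime, for almost all integers of every interval `(X, X + H]` with
`√X (log X)^B ≤ H ≤ X`.
-/

set_option autoImplicit false

namespace Pool.Agent.Results.MP_83819a_nt.ShortIntervalAsymptotic

open Finset Filter

/-- `N(n)`: the number of `m ≥ 0` with `n - m²` prime -/
noncomputable def repCount (n : ℕ) : ℕ :=
  ((range (n + 1)).filter (fun m : ℕ => m ^ 2 ≤ n ∧ (n - m ^ 2).Prime)).card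

/-- the sum of `1 / log (n - m²)` over `m ≥ 0` with `m² + 2 ≤ n` -/
noncomputable def mainSum (n : ℕ) : ℝ :=
  ∑ m ∈ (range (n + 1)).filter (fun m : ℕ => m ^ 2 + 2 ≤ n), 1 / Real.log ((n - m ^ 2 : ℕ) : ℝ)

/-- `∏ (1 - (n/p)/(p-1))` over the odd primes `p < X` -/
noncomputable def partialProd (n X : ℕ) : ℝ :=
  ∏ p ∈ (range X).filter (fun p : ℕ => Nat.Prime p ∧ 2 < p),
    (1 - ((jacobiSym (n : ℤ) p : ℤ) : ℝ) / ((p : ℝ) - 1))

lemma prod_eq (n X : ℕ) : Pool.Agent.W80.EC.Pc (-((1 : ℕ) : ℤ)) ((0 ^ 2 + 4 * 1 * n : ℕ) : ℤ) X =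
    partialProd n X := by
  unfold Pool.Agent.W80.EC.Pc partialProd
  have hset : (range X).filter (fun p : ℕ => Nat.Prime p ∧ 2 < p ∧ ¬ ((p : ℤ) ∣ -((1 : ℕ) : ℤ))) =
      (range X).filter (fun p : ℕ => Nat.Prime p ∧ 2 < p) := by
    apply filter_congr
    intro p _
    constructor
    · rintro ⟨h1, h2, _⟩
      exact ⟨h1, h2⟩
    · rintro ⟨h1, h2⟩
      refine ⟨h1, h2, fun h => ?_⟩
      rw [dvd_neg, Int.natCast_dvd_natCast, Nat.dvd_one] at h
      omega
  rw [hset]
  apply prod_congr rfl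
  intro p hp
  rw [mem_filter] at hp
  have hp2 : p ≠ 2 := by omega
  have e1 : ((0 ^ 2 + 4 * 1 * n : ℕ) : ℤ) = (2 : ℤ) ^ 2 * n := by push_cast; ring
  have h2 : (2 : ℤ).gcd p = 1 := by
    have h3 : Nat.Coprime 2 p := (Nat.coprime_primes Nat.prime_two hp.2.1).2 (Ne.symm hp2)
    exact h3
  rw [e1, jacobiSym.mul_left, jacobiSym.sq_one' h2, one_mul]

lemma repCount_eq (n : ℕ) : (repCount n : ℝ) = (if n.Prime then 1 else 0) +
    (Pool.Agent.W81.R1N.rr 1 0 n : ℝ) := by
  unfold repCount Pool.Agent.W81.R1N.rr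
  simp only [one_mul, zero_mul, add_zero]
  have h1 : (range (n + 1)).filter (fun m : ℕ => m ^ 2 ≤ n ∧ (n - m ^ 2).Prime) =
      ({0} : Finset ℕ).filter (fun m : ℕ => m ^ 2 ≤ n ∧ (n - m ^ 2).Prime) ∪
      (Icc 1 n).filter (fun m : ℕ => m ^ 2 ≤ n ∧ (n - m ^ 2).Prime) := by
    rw [← filter_union]
    congr 1
    ext m
    simp only [mem_range, mem_union, mem_singleton, mem_Icc]
    omega
  rw [h1, card_union_of_disjoint]
  · push_cast
    congr 1
    rw [filter_singleton]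
    by_cases h : n.Prime
    · rw [if_pos h, if_pos (by simpa using h)]
      simp
    · rw [if_neg h, if_neg (by simpa using h)]
      simp
  · rw [disjoint_left]
    intro m h2 h3
    simp only [mem_filter, mem_singleton, mem_Icc] at h2 h3
    omega

lemma mainSum_eq (n : ℕ) (hn : 2 ≤ n) : mainSum n = 1 / Real.log n + Pool.Agent.W81.R1N.JJ 1 0 n := by
  unfold mainSum Pool.Agent.W81.R1N.JJ
  simp only [one_mul, zero_mul, add_zero]
  have h1 : (range (n + 1)).filter (fun m : ℕ => m ^ 2 + 2 ≤ n) =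
      insert 0 ((Icc 1 n).filter (fun m : ℕ => m ^ 2 + 2 ≤ n)) := by
    ext m
    simp only [mem_range, mem_insert, mem_filter, mem_Icc]
    constructor
    · rintro ⟨h2, h3⟩
      rcases Nat.eq_zero_or_pos m with h0 | h0
      · exact Or.inl h0
      · exact Or.inr ⟨⟨h0, by omega⟩, h3⟩
    · rintro (h2 | ⟨⟨h2, h3⟩, h4⟩)
      · subst h2
        exact ⟨by omega, by omega⟩
      · exact ⟨by omega, h4⟩
  rw [h1, sum_insert (by simp)]
  simp

open Classical in
/-- **Square plus prime, almost all integers of short intervals.** For all `U` and `0 < ε ≤ 1/2`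
there are `B, X₀` such that for all `X ≥ X₀` and `√X (log X)^B ≤ H ≤ X`, all integers `n` of the
interval `(X, X + H]` but at most `H/(log X)^U` have the following property: if `n` is not a square,
then the infinite product `∏ (1 - (n/p)/(p-1))` over the odd primes converges to some
`𝔖 ≥ 1/(4 log X)`, the number `N(n)` of representations of `n` as a square plus a prime equals
`𝔖 (∑_{m ≥ 0} 1/log(n - m²) + O*(√n/(log n)^U))`, it is `(1 + O*(ε)) 𝔖 √n/log n`, and in particular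
`n = m² + p` with `m ≥ 0` and `p` prime. -/
theorem result (U : ℕ) (ε : ℝ) (hε : 0 < ε) (hε1 : ε ≤ 1 / 2) : ∃ B X0 : ℕ, ∀ X H : ℕ, X0 ≤ X →
    Real.sqrt X * Real.log X ^ B ≤ H → H ≤ X →
    ∃ Bad : Finset ℕ, (Bad.card : ℝ) ≤ H / Real.log X ^ U ∧
      ∀ n : ℕ, X < n → n ≤ X + H → n ∉ Bad → ¬ IsSquare n →
        ∃ S : ℝ, 0 < S ∧ Tendsto (fun Y : ℕ => partialProd n Y) atTop (nhds S) ∧
          1 / (4 * Real.log X) ≤ S ∧
          |(repCount n : ℝ) - S * mainSum n| ≤ S * (Real.sqrt n / Real.log n ^ U) ∧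
          |(repCount n : ℝ) - S * (Real.sqrt n / Real.log n)| ≤
            ε * (S * (Real.sqrt n / Real.log n)) ∧
          ∃ m p : ℕ, p.Prime ∧ n = m ^ 2 + p := by
  obtain ⟨B, N0, h⟩ := Pool.Agent.W81.R1N.app 1 0 le_rfl (U + 1) (ε / 2) (by positivity) (by linarith)
  obtain ⟨N1, hN1⟩ := eventually_atTop.mp
    ((Pool.Agent.H442R2.EHI.evt_log_pow (U + 6) (1 / 2) (by norm_num)).and
      ((Pool.Agent.H442R2.EHI.evt_log_ge 20).and (Pool.Agent.H442R2.EHI.evt_log_ge (20 / ε))))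
  refine ⟨B, N0 + N1 + 3, fun X H hN hH1 hH2 => ?_⟩
  obtain ⟨Bad, hBad, hgood⟩ := h X H (by omega) hH1 hH2
  obtain ⟨_, hLX, _⟩ := hN1 X (by omega)
  have hLX0 : 0 < Real.log X := by linarith
  refine ⟨Bad, hBad.trans ?_, fun n hn1 hn2 hnB hsq => ?_⟩
  · apply div_le_div_of_nonneg_left (Nat.cast_nonneg _) (by positivity)
    exact pow_le_pow_right₀ (by linarith) (by omega)
  obtain ⟨K, hK, hlim, hlow, hA, hB⟩ := hgood n (mem_Ioc.2 ⟨hn1, hn2⟩) hnB (by simp)
    (by
      intro hcon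
      apply hsq
      have e1 : 0 ^ 2 + 4 * 1 * n = 2 ^ 2 * n := by ring
      rw [e1] at hcon
      obtain ⟨r, hr⟩ := hcon
      have h2 : 2 ∣ r := by
        have h3 : 2 ∣ r * r := ⟨2 * n, by rw [← hr]; ring⟩
        rcases (Nat.Prime.dvd_mul Nat.prime_two).1 h3 with h4 | h4 <;> exact h4
      obtain ⟨s, rfl⟩ := h2
      refine ⟨s, ?_⟩
      have h5 : 4 * n = 4 * (s * s) := by rw [show 4 * n = 2 ^ 2 * n by ring, hr]; ring
      omega) (by simp)
  have hep : Pool.Agent.W80.EC.ep (-((1 : ℕ) : ℤ)) (-((0 : ℕ) : ℤ)) = 1 := by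
    unfold Pool.Agent.W80.EC.ep
    rw [if_neg]
    decide
  have hGf : Pool.Agent.W80.EC.Gf (-((1 : ℕ) : ℤ)) (-((0 : ℕ) : ℤ)) = 1 := by
    unfold Pool.Agent.W80.EC.Gf
    have : Int.gcd (-((1 : ℕ) : ℤ)) (-((0 : ℕ) : ℤ)) = 1 := by decide
    rw [this, Nat.primeFactors_one, filter_empty, prod_empty]
  rw [hep, hGf, one_mul, mul_one] at hlow hA hB
  rw [Nat.cast_one, div_one] at hB
  obtain ⟨hpw, hL20, hLε⟩ := hN1 n (by omega)
  have hn0 : (0 : ℝ) < n := by
    have : 0 < n := by omega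
    exact_mod_cast this
  set L := Real.log n with hL
  have hL0 : 0 < L := by linarith
  have hL1 : 1 ≤ L := by linarith
  have hXn : Real.log X ≤ L := by
    apply Real.log_le_log
    · have : 0 < X := by omega
      exact_mod_cast this
    · exact_mod_cast hn1.le
  have hlow' : 1 ≤ 4 * L * K := by
    rw [div_le_iff₀ (by positivity)] at hlow
    have : K * (4 * Real.log X) ≤ K * (4 * L) := by gcongr
    linarith
  have hsq2 : Real.sqrt n = (n : ℝ) ^ (1 / 2 : ℝ) := Real.sqrt_eq_rpow _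
  rw [← hsq2] at hpw
  have hLε' : 20 ≤ ε * L := by
    rw [div_le_iff₀ hε] at hLε
    linarith
  -- the term `m = 0`
  have hzero : |(if n.Prime then (1 : ℝ) else 0) - K * (1 / L)| ≤ K * (5 * L) := by
    have h1 : 0 ≤ (if n.Prime then (1 : ℝ) else 0) ∧ (if n.Prime then (1 : ℝ) else 0) ≤ 1 := by
      split_ifs <;> constructor <;> norm_num
    have h2 : K * (1 / L) ≤ K * L := by
      apply mul_le_mul_of_nonneg_left _ hK.le
      rw [div_le_iff₀ hL0]
      nlinarith
    have h3 : 0 ≤ K * (1 / L) := by positivity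
    rw [abs_le]
    constructor <;> nlinarith
  have hone : |(if n.Prime then (1 : ℝ) else 0)| ≤ K * (5 * L) := by
    have h1 : 0 ≤ (if n.Prime then (1 : ℝ) else 0) ∧ (if n.Prime then (1 : ℝ) else 0) ≤ 1 := by
      split_ifs <;> constructor <;> norm_num
    rw [abs_of_nonneg h1.1]
    nlinarith
  refine ⟨K, hK, ?_, hlow, ?_, ?_, ?_⟩
  · simp_rw [← prod_eq]
    exact hlim
  · rw [repCount_eq, mainSum_eq n (by omega)]
    have e1 : (if n.Prime then (1 : ℝ) else 0) + (Pool.Agent.W81.R1N.rr 1 0 n : ℝ) -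
        K * (1 / L + Pool.Agent.W81.R1N.JJ 1 0 n) =
        ((if n.Prime then (1 : ℝ) else 0) - K * (1 / L)) +
        ((Pool.Agent.W81.R1N.rr 1 0 n : ℝ) - K * Pool.Agent.W81.R1N.JJ 1 0 n) := by ring
    rw [e1]
    refine (abs_add_le _ _).trans ((add_le_add hzero hA).trans ?_)
    rw [← mul_add]
    apply mul_le_mul_of_nonneg_left _ hK.le
    have h1 : 5 * L ≤ Real.sqrt n / L ^ (U + 1) := by
      rw [le_div_iff₀ (by positivity)]
      calc 5 * L * L ^ (U + 1) ≤ L * L * L ^ (U + 1) := by gcongr; linarith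
        _ = L ^ (U + 3) := by ring
        _ ≤ L ^ (U + 6) := pow_le_pow_right₀ hL1 (by omega)
        _ ≤ Real.sqrt n := hpw
    calc 5 * L + Real.sqrt n / L ^ (U + 1) ≤ 2 * (Real.sqrt n / L ^ (U + 1)) := by linarith
      _ ≤ L * (Real.sqrt n / L ^ (U + 1)) := by gcongr; linarith
      _ = Real.sqrt n / L ^ U := by
          rw [pow_succ L U]
          field_simp
  · rw [repCount_eq]
    have e1 : (if n.Prime then (1 : ℝ) else 0) + (Pool.Agent.W81.R1N.rr 1 0 n : ℝ) -
        K * (Real.sqrt n / L) = (if n.Prime then (1 : ℝ) else 0) +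
        ((Pool.Agent.W81.R1N.rr 1 0 n : ℝ) - K * (Real.sqrt n / L)) := by ring
    rw [e1]
    refine (abs_add_le _ _).trans ((add_le_add hone hB).trans ?_)
    have h1 : 5 * L ≤ ε / 2 * (Real.sqrt n / L) := by
      have h2 : L ^ 5 ≤ Real.sqrt n := (pow_le_pow_right₀ hL1 (by omega)).trans hpw
      have h3 : L ^ 4 ≤ Real.sqrt n / L := by
        rw [le_div_iff₀ hL0]
        calc L ^ 4 * L = L ^ 5 := by ring
          _ ≤ _ := h2
      calc 5 * L ≤ ε / 2 * L ^ 4 := by
            have h4 : 10 * L ≤ ε * L * L ^ 3 := by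
              have h5 : L ≤ L ^ 3 := le_self_pow₀ hL1 (by norm_num)
              nlinarith
            have h6 : ε * L * L ^ 3 = ε * L ^ 4 := by ring
            linarith
        _ ≤ ε / 2 * (Real.sqrt n / L) := by gcongr
    have h7 : K * (5 * L) ≤ K * (ε / 2 * (Real.sqrt n / L)) := mul_le_mul_of_nonneg_left h1 hK.le
    have h8 : ε / 2 * (K * (Real.sqrt n / L)) = K * (ε / 2 * (Real.sqrt n / L)) := by ring
    have h9 : ε * (K * (Real.sqrt n / L)) = K * (ε / 2 * (Real.sqrt n / L)) + K * (ε / 2 * (Real.sqrt n / L)) := by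
      ring
    rw [h9]
    linarith
  · have hpos : 0 < Pool.Agent.W81.R1N.rr 1 0 n := by
      have h1 : 0 < K * (Real.sqrt n / L) := by
        have := Real.sqrt_pos.2 hn0
        positivity
      have h2 := (abs_le.1 hB).1
      have h3 : 0 < (Pool.Agent.W81.R1N.rr 1 0 n : ℝ) := by nlinarith
      exact_mod_cast h3
    unfold Pool.Agent.W81.R1N.rr at hpos
    simp only [one_mul, zero_mul, add_zero] at hpos
    rw [card_pos] at hpos
    obtain ⟨m, hm⟩ := hpos
    rw [mem_filter, mem_Icc] at hm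
    exact ⟨m, n - m ^ 2, hm.2.2, by omega⟩

end Pool.Agent.Results.MP_83819a_nt.ShortIntervalAsymptotic
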